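import Mathlib
import Pool.Agent.H59.AH1

set_option autoImplicit false

namespace Pool.Agent.Results.MP_14cf73_nt.Constant

open Finset Filter Topology Pool.Agent.H59.AH

/-- the radical `γ(n)` -/
def rad (n : ℕ) : ℕ := ∏ p ∈ n.primeFactors, p

/-- `H(n) = γ(n) / (log γ(n))^ω(n)` -/
noncomputable def H (n : ℕ) : ℝ := (rad n : ℝ) / (Real.log (rad n)) ^ n.primeFactors.card

/-- admissible triple -/
def Admissible (a b c : ℕ) : Prop :=
  0 < a ∧ 0 < b ∧ 0 < c ∧ a + b = c ∧ Nat.gcd a (Nat.gcd b c) = 1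

/-- `max(H(abc), e^e)` -/
noncomputable def Hs (a b c : ℕ) : ℝ := max (H (a * b * c)) (Real.exp (Real.exp 1))

lemma logH {y c : ℕ} (hy : 5 ≤ y) (hc : 0 < c) (h2 : th y / 2 ≤ Real.log c) :
    0 < H ((∏ p ∈ S y, p) * c) ∧ Real.log (H ((∏ p ∈ S y, p) * c)) ≤
      Real.log c - ((S y).card * Real.log (3 / 2 * th y) - th y) := by
  set P := ∏ p ∈ S y, p with hP
  have hP0 : 0 < P := prod_pos fun p hp => (mem_S.1 hp).2.pos
  have hpf : P.primeFactors = S y := Nat.primeFactors_prod fun p hp => (mem_S.1 hp).2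
  have hu : (P * c).primeFactors = S y ∪ c.primeFactors := by
    rw [Nat.primeFactors_mul hP0.ne' hc.ne', hpf]
  have r1 : P ≤ rad (P * c) := by
    rw [rad, hu]
    apply Nat.le_of_dvd (prod_pos fun p hp => ?_) (prod_dvd_prod_of_subset _ _ _ subset_union_left)
    rw [← hu] at hp; exact (Nat.prime_of_mem_primeFactors hp).pos
  have r2 : rad (P * c) ≤ P * c := Nat.le_of_dvd (by positivity) (Nat.prod_primeFactors_dvd _)
  have r3 : (S y).card ≤ (P * c).primeFactors.card := by
    rw [hu]; exact card_le_card subset_union_left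
  have hPr : (0 : ℝ) < P := by exact_mod_cast hP0
  have hcr : (0 : ℝ) < c := by exact_mod_cast hc
  have r1' : (P : ℝ) ≤ rad (P * c) := by exact_mod_cast r1
  have r2' : (rad (P * c) : ℝ) ≤ P * c := by exact_mod_cast r2
  have l1 : th y ≤ Real.log (rad (P * c)) := by
    rw [← log_prod]; exact Real.log_le_log hPr r1'
  have l2 : Real.log (rad (P * c)) ≤ th y + Real.log c := by
    rw [← log_prod, ← Real.log_mul hPr.ne' hcr.ne']; exact Real.log_le_log (by linarith) r2'
  have k1 := card_le_th hy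
  have k2 : (3 : ℝ) ≤ (S y).card := by
    have : (S 5).card ≤ (S y).card := card_le_card fun p hp =>
      mem_S.2 ⟨le_trans (mem_S.1 hp).1 hy, (mem_S.1 hp).2⟩
    have h5 : (S 5).card = 3 := by decide
    exact_mod_cast h5 ▸ this
  have hL : 1 ≤ Real.log (rad (P * c)) := by linarith
  refine ⟨by rw [H]; exact div_pos (by linarith) (by positivity), ?_⟩
  rw [H, Real.log_div (by linarith) (by positivity), Real.log_pow]
  have r3' : ((S y).card : ℝ) ≤ (P * c).primeFactors.card := by exact_mod_cast r3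
  generalize Real.log (rad (P * c)) = L at *
  generalize ((P * c).primeFactors.card : ℝ) = w at *
  generalize ((S y).card : ℝ) = q at *
  generalize th y = t at *
  generalize Real.log c = l at *
  have m1 := mul_le_mul_of_nonneg_right r3' (Real.log_nonneg hL)
  have m2 : Real.log (3 / 2 * t) ≤ Real.log (t + l) := Real.log_le_log (by linarith) (by linarith)
  have m3 := Real.log_le_sub_one_of_pos (x := (t + l) / L) (div_pos (by linarith) (by linarith))
  rw [Real.log_div (by linarith) (by linarith)] at m3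
  have m4 : q * ((t + l) / L - 1) ≤ t + l - L := by
    have : (t + l) / L - 1 = (t + l - L) / L := by field_simp
    rw [this, ← mul_div_assoc, div_le_iff₀ (by linarith)]
    nlinarith
  have m5 := mul_le_mul_of_nonneg_left m3 (by linarith : 0 ≤ q)
  have m6 := mul_le_mul_of_nonneg_left m2 (by linarith : 0 ≤ q)
  nlinarith

lemma mono {u v : ℝ} (hu : Real.exp 1 ≤ u) (huv : u ≤ v) : u / Real.log u ≤ v / Real.log v := by
  have h := Real.log_div_self_antitoneOn hu (le_trans hu huv) huv
  have h0 : 1 < u := lt_of_lt_of_le (by have := Real.exp_one_gt_d9; linarith) hu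
  have l1 := Real.log_pos h0
  have l2 := Real.log_pos (lt_of_lt_of_le h0 huv)
  simp only at h
  rw [div_le_div_iff₀ (by linarith) (by linarith)] at h
  rw [div_le_div_iff₀ l1 l2]
  linarith

theorem result (K : ℝ) (hK : K < 2 * (1 + Real.log (3 / 2))) :
    {t : ℕ × ℕ × ℕ | Admissible t.1 t.2.1 t.2.2 ∧
      Hs t.1 t.2.1 t.2.2 * Real.exp (K * Real.log (Hs t.1 t.2.1 t.2.2) /
        Real.log (Real.log (Hs t.1 t.2.1 t.2.2))) < (t.2.2 : ℝ)}.Infinite := by
  have hl32 : 0 ≤ Real.log (3 / 2) := Real.log_nonneg (by norm_num)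
  set K' := max K 0 with hK'
  have hK0 : 0 ≤ K' := le_max_right _ _
  have hK1 : K' < 2 * (1 + Real.log (3 / 2)) := max_lt hK (by linarith)
  obtain ⟨δ, d0, d1, d2⟩ : ∃ δ : ℝ, 0 < δ ∧ δ ≤ 1 / 4 ∧ K' * (1 / 2 + δ) <
      (1 - δ) * ((1 - δ) ^ 2 + (1 - δ) * Real.log (3 / 2 * (1 - δ))) := by
    have hc : ContinuousAt (fun δ : ℝ => (1 - δ) * ((1 - δ) ^ 2 + (1 - δ) *
        Real.log (3 / 2 * (1 - δ))) - K' * (1 / 2 + δ)) 0 := by
      fun_prop (disch := norm_num)
    have h1 := hc.eventually (lt_mem_nhds (a := (0 : ℝ)) (by simp only [sub_zero, mul_one]; linarith))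
    have h2 : ∀ᶠ δ : ℝ in 𝓝[>] 0, δ ∈ Set.Ioo (0 : ℝ) (1 / 4) := Ioo_mem_nhdsGT (by norm_num)
    obtain ⟨δ, a1, a2⟩ := ((h1.filter_mono nhdsWithin_le_nhds).and h2).exists
    exact ⟨δ, a2.1, a2.2.le, by linarith⟩
  set κ := (1 - δ) ^ 2 + (1 - δ) * Real.log (3 / 2 * (1 - δ)) with hκ
  have hκ2 : κ ≤ 2 := by
    have := Real.log_le_sub_one_of_pos (x := 3 / 2 * (1 - δ)) (by linarith)
    have h3 : 0 ≤ Real.log (3 / 2 * (1 - δ)) := Real.log_nonneg (by linarith)
    nlinarith
  apply Set.Infinite.of_image (fun t : ℕ × ℕ × ℕ => t.2.2)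
  apply Set.infinite_of_forall_exists_gt
  intro N
  have e1 : Tendsto (fun y : ℕ => Real.log y) atTop atTop :=
    Real.tendsto_log_atTop.comp tendsto_natCast_atTop_atTop
  have e2 : ∀ᶠ y : ℕ in atTop, Real.log y / y < δ / 2 :=
    (Real.isLittleO_log_id_atTop.tendsto_div_nhds_zero.comp
      tendsto_natCast_atTop_atTop).eventually (gt_mem_nhds (by linarith))
  obtain ⟨y, ⟨g1, g2, g3⟩, g4, g5, g6, g7⟩ := ((gain d0 d1).and ((e1.eventually_ge_atTop 16).and
    ((e1.eventually_ge_atTop (1 / δ)).and (e2.and (eventually_ge_atTop (3 * N + 30)))))).exists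
  have hy : (3 * N + 30 : ℝ) ≤ y := by exact_mod_cast g7
  have hN : (0 : ℝ) ≤ N := Nat.cast_nonneg _
  obtain ⟨a, b, s1, s2, s3⟩ := split (S y) y (by omega)
    (fun p hp => ⟨(mem_S.1 hp).2.pos, (mem_S.1 hp).1⟩)
  have hP0 : 0 < a * b := by rw [s1]; exact prod_pos fun p hp => (mem_S.1 hp).2.pos
  have ha : 0 < a := Nat.pos_of_mul_pos_right hP0
  have hb : 0 < b := by omega
  have hsq : Squarefree (a * b) := by
    rw [s1]
    exact Finset.squarefree_prod_of_pairwise_isCoprime (fun p hp q hq hpq => by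
      exact Nat.coprime_iff_isRelPrime.1
        ((Nat.coprime_primes (mem_S.1 hp).2 (mem_S.1 hq).2).2 hpq))
      (fun p hp => (mem_S.1 hp).2.squarefree)
  have hco : Nat.Coprime a b := Nat.coprime_of_squarefree_mul hsq
  have ar : (0 : ℝ) < a := by exact_mod_cast ha
  have br : (0 : ℝ) < b := by exact_mod_cast hb
  have yr : (0 : ℝ) < y := by linarith
  have t1 : Real.log a + Real.log b = th y := by
    rw [← log_prod, ← s1, ← Real.log_mul ar.ne' br.ne']; push_cast; rfl
  have t2 : Real.log a ≤ Real.log b := Real.log_le_log ar (by exact_mod_cast s2)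
  have t3 : Real.log b ≤ Real.log y + Real.log a := by
    rw [← Real.log_mul yr.ne' ar.ne']; exact Real.log_le_log br (by exact_mod_cast s3)
  have t4 : Real.log b ≤ Real.log ((a + b : ℕ) : ℝ) := Real.log_le_log br (by push_cast; linarith)
  have hl2 : Real.log 2 ≤ 1 := by have := Real.log_two_lt_d9; linarith
  have t5 : Real.log ((a + b : ℕ) : ℝ) ≤ Real.log 2 + Real.log b := by
    rw [← Real.log_mul (by norm_num) br.ne']
    apply Real.log_le_log (by positivity)
    have : (a : ℝ) ≤ b := by exact_mod_cast s2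
    push_cast; linarith
  obtain ⟨u1, u2⟩ := logH (y := y) (c := a + b) (by omega) (by omega) (by linarith)
  rw [← s1] at u1 u2
  have cr : (0 : ℝ) < ((a + b : ℕ) : ℝ) := by positivity
  rw [div_lt_iff₀ yr] at g6
  rw [div_le_iff₀ d0] at g5
  set l := Real.log ((a + b : ℕ) : ℝ) with hl
  have he : Real.exp 1 ≤ 3 := by have := Real.exp_one_lt_d9; linarith
  have w1 : 3 / 8 * y ≤ l := by nlinarith
  have w2 : l ≤ (1 / 2 + δ) * y := by nlinarith
  have w3 : (y : ℝ) / Real.log y ≤ y / 16 := div_le_div_of_nonneg_left yr.le (by norm_num) g4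
  have w0 : 0 < (y : ℝ) / Real.log y := div_pos yr (by linarith)
  have w4 : κ * (y / Real.log y) ≤ y / 8 := by nlinarith
  have hκ0 : 0 ≤ κ := by
    have h3 : 0 ≤ Real.log (3 / 2 * (1 - δ)) := Real.log_nonneg (by linarith)
    have : 0 ≤ 1 - δ := by linarith
    positivity
  refine ⟨a + b, ⟨(a, b, a + b), ⟨⟨ha, hb, Nat.add_pos_left ha b, rfl, ?_⟩, ?_⟩, rfl⟩, ?_⟩
  · show Nat.gcd a (Nat.gcd b (a + b)) = 1
    rw [Nat.gcd_add_self_right, Nat.gcd_comm b a, hco]; simp
  · show Hs a b (a + b) * Real.exp (K * Real.log (Hs a b (a + b)) /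
      Real.log (Real.log (Hs a b (a + b)))) < ((a + b : ℕ) : ℝ)
    have v0 : 0 < Hs a b (a + b) := lt_max_of_lt_left u1
    have v1 : Real.exp 1 ≤ Real.log (Hs a b (a + b)) := by
      rw [Real.le_log_iff_exp_le v0]; exact le_max_right _ _
    have v2 : Real.log (Hs a b (a + b)) ≤ l - κ * (y / Real.log y) := by
      rw [Hs]
      rcases le_total (H (a * b * (a + b))) (Real.exp (Real.exp 1)) with h | h
      · rw [max_eq_right h, Real.log_exp]; linarith
      · rw [max_eq_left h]; linarith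
    rw [← Real.exp_log v0, ← Real.exp_add, ← Real.exp_log cr, Real.exp_lt_exp, Real.log_exp,
      ← hl]
    generalize Real.log (Hs a b (a + b)) = h at *
    have v3 := mono v1 (show h ≤ (1 / 2 + δ) * y by nlinarith)
    have v4 : (1 - δ) * Real.log y ≤ Real.log ((1 / 2 + δ) * y) := by
      have : Real.log (y / 2) ≤ Real.log ((1 / 2 + δ) * y) :=
        Real.log_le_log (by positivity) (by nlinarith)
      rw [Real.log_div yr.ne' (by norm_num)] at this
      nlinarith
    have v5 : (1 / 2 + δ) * y / Real.log ((1 / 2 + δ) * y) ≤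
        (1 / 2 + δ) * y / ((1 - δ) * Real.log y) :=
      div_le_div_of_nonneg_left (by positivity) (by nlinarith) v4
    have v6 : K' * ((1 / 2 + δ) * y / ((1 - δ) * Real.log y)) < κ * (y / Real.log y) := by
      have : K' * ((1 / 2 + δ) * y / ((1 - δ) * Real.log y)) =
          K' * (1 / 2 + δ) / (1 - δ) * (y / Real.log y) := by
        have : (1 - δ) ≠ 0 := by linarith
        field_simp
      rw [this]
      apply mul_lt_mul_of_pos_right _ w0
      rw [div_lt_iff₀ (by linarith)]; linarith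
    have h1 : 1 < h := lt_of_lt_of_le (by have := Real.exp_one_gt_d9; linarith) v1
    have v7 : 0 ≤ h / Real.log h := div_nonneg (by linarith) (Real.log_pos h1).le
    have v8 : K * (h / Real.log h) ≤ K' * (h / Real.log h) :=
      mul_le_mul_of_nonneg_right (le_max_left _ _) v7
    have v9 := mul_le_mul_of_nonneg_left (le_trans v3 v5) hK0
    rw [mul_div_assoc]
    linarith
  · have := Real.add_one_le_exp l
    rw [hl, Real.exp_log cr, ← hl] at this
    have h2 : (N : ℝ) < ((a + b : ℕ) : ℝ) := by linarith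
    exact_mod_cast h2

end Pool.Agent.Results.MP_14cf73_nt.Constant
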